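import Pool.Agent.Helper65.KG.Goals

/-! Packet CT of project KG (set equality copied from Helper93/KN/DU.lean). -/

set_option autoImplicit false

open MeasureTheory Set

namespace Pool.Agent.Helper62.KG.CT

open Pool.Agent.Helper70.KN Pool.Agent.Helper65.KG

theorem dual_sum {N : ℕ} (f : (Fin N → ℝ) →L[ℝ] ℝ) (y : Fin N → ℝ) :
    f y = ∑ j, f (Pi.single j 1) * y j := by
  have h := LinearMap.pi_apply_eq_sum_univ (f : (Fin N → ℝ) →ₗ[ℝ] ℝ) y
  have h1 : f y = ∑ i, y i • f (fun j => if i = j then 1 else 0) := h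
  rw [h1]
  refine Finset.sum_congr rfl (fun i _ => ?_)
  have h2 : (fun j : Fin N => if i = j then (1 : ℝ) else 0) = Pi.single i 1 := by
    ext j
    rw [Pi.single_apply]
    by_cases hij : i = j
    · rw [if_pos hij, if_pos hij.symm]
    · rw [if_neg hij, if_neg (fun h => hij h.symm)]
  rw [h2, smul_eq_mul, mul_comm]

theorem mem_v {N : ℕ} {V : Finset (Fin N → ℕ)} {v : Fin N → ℕ} (hv : v ∈ V) :
    (fun i => (v i : ℝ)) ∈ newton V :=
  ⟨_, subset_convexHull ℝ _ ⟨v, hv, rfl⟩, le_rfl⟩

theorem eqn (hCL : S_CL) {N : ℕ} {V : Finset (Fin N → ℕ)} {c : ℝ} (hN : 2 ≤ N)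
    (hV : Thick V c) : newton V = {x | 0 ≤ x ∧ ∀ w ∈ {w : Fin N → ℝ |
      (∀ j, 0 ≤ w j ∧ w j ≤ 1 / c) ∧ ∀ v ∈ V, 1 ≤ ∑ j, w j * (v j : ℝ)}, 1 ≤ ∑ j, w j * x j} := by
  obtain ⟨hconv, hc, h0, hthick⟩ := hV
  obtain ⟨hcl, hcv, hup⟩ := hCL N V
  apply Set.Subset.antisymm
  · rintro x ⟨z, hz, hzx⟩
    have hsub : convexHull ℝ ((fun (v : Fin N → ℕ) (i : Fin N) => (v i : ℝ)) '' (V : Set (Fin N → ℕ))) ⊆
        {z | 0 ≤ z ∧ ∀ w ∈ {w : Fin N → ℝ | (∀ j, 0 ≤ w j ∧ w j ≤ 1 / c) ∧ ∀ v ∈ V, 1 ≤ ∑ j, w j * (v j : ℝ)},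
          1 ≤ ∑ j, w j * z j} := by
      refine convexHull_min ?_ ?_
      · rintro _ ⟨v, hv, rfl⟩
        exact ⟨fun i => Nat.cast_nonneg _, fun w hw => hw.2 v hv⟩
      · rintro a ⟨ha0, ha⟩ b ⟨hb0, hb⟩ s r hs hr hsr
        refine ⟨add_nonneg (smul_nonneg hs ha0) (smul_nonneg hr hb0), fun w hw => ?_⟩
        have e : ∑ j, w j * (s • a + r • b) j = s * ∑ j, w j * a j + r * ∑ j, w j * b j := by
          rw [Finset.mul_sum, Finset.mul_sum, ← Finset.sum_add_distrib]
          refine Finset.sum_congr rfl (fun j _ => ?_)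
          simp only [Pi.add_apply, Pi.smul_apply, smul_eq_mul]
          ring
        rw [e]
        have h1 := mul_le_mul_of_nonneg_left (ha w hw) hs
        have h2 := mul_le_mul_of_nonneg_left (hb w hw) hr
        linarith
    obtain ⟨hz0, hzw⟩ := hsub hz
    refine ⟨hz0.trans hzx, fun w hw => (hzw w hw).trans ?_⟩
    exact Finset.sum_le_sum (fun j _ => mul_le_mul_of_nonneg_left (hzx j) (hw.1 j).1)
  · rintro x ⟨hx0, hxL⟩
    by_contra hx
    obtain ⟨f, u, hfx, hfb⟩ := geometric_hahn_banach_point_closed hcv hcl hx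
    -- the coordinates are nonnegative
    have hf0 : ∀ j, 0 ≤ f (Pi.single j 1) := by
      intro j
      by_contra hneg
      push Not at hneg
      obtain ⟨m, -, hm⟩ := hconv ⟨0, by omega⟩
      have hb := mem_v hm
      set b : Fin N → ℝ := fun i => ((Pi.single (⟨0, by omega⟩ : Fin N) m : Fin N → ℕ) i : ℝ) with hbdef
      have hfb0 := hfb b hb
      have hs : 0 ≤ (f b - u) / (-f (Pi.single j 1)) := div_nonneg (by linarith) (by linarith)
      have h1 := hfb (b + ((f b - u) / (-f (Pi.single j 1))) • Pi.single j 1)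
        (hup (le_add_of_nonneg_right (smul_nonneg hs (Pi.single_nonneg.2 zero_le_one))) hb)
      rw [map_add, map_smul, smul_eq_mul] at h1
      have h2 : (f b - u) / (-f (Pi.single j 1)) * f (Pi.single j 1) = -(f b - u) := by
        rw [div_neg, neg_mul, div_mul_cancel₀ _ hneg.ne]
      rw [h2] at h1
      linarith
    have hfx0 : 0 ≤ f x := by
      rw [dual_sum]
      exact Finset.sum_nonneg (fun j _ => mul_nonneg (hf0 j) (hx0 j))
    have hu : 0 < u := by linarith
    set w : Fin N → ℝ := fun j => min (f (Pi.single j 1) / u) (1 / c) with hw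
    have hw0 : ∀ j, 0 ≤ w j := fun j => le_min (div_nonneg (hf0 j) hu.le) (by positivity)
    have hwL : w ∈ {w : Fin N → ℝ | (∀ j, 0 ≤ w j ∧ w j ≤ 1 / c) ∧ ∀ v ∈ V, 1 ≤ ∑ j, w j * (v j : ℝ)} := by
      refine ⟨fun j => ⟨hw0 j, min_le_right _ _⟩, fun v hv => ?_⟩
      by_cases hcase : ∃ j, v j ≠ 0 ∧ 1 / c ≤ f (Pi.single j 1) / u
      · obtain ⟨j, hj1, hj2⟩ := hcase
        have e1 : w j = 1 / c := min_eq_right hj2
        have e2 : (1 : ℝ) ≤ w j * v j := by
          rw [e1]
          have := hthick v hv j hj1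
          rw [one_div, ← inv_mul_cancel₀ hc.ne']
          exact mul_le_mul_of_nonneg_left this (by positivity)
        exact e2.trans (Finset.single_le_sum (f := fun j => w j * (v j : ℝ))
          (fun k _ => mul_nonneg (hw0 k) (Nat.cast_nonneg _)) (Finset.mem_univ j))
      · push Not at hcase
        have e1 : ∑ j, w j * (v j : ℝ) = f (fun i => (v i : ℝ)) / u := by
          rw [dual_sum, Finset.sum_div]
          refine Finset.sum_congr rfl (fun j _ => ?_)
          by_cases hj : v j = 0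
          · rw [hj, Nat.cast_zero, mul_zero, mul_zero, zero_div]
          · rw [hw]
            simp only
            rw [min_eq_left (hcase j hj).le]
            ring
        rw [e1, le_div_iff₀ hu, one_mul]
        exact (hfb _ (mem_v hv)).le
    have h1 := hxL w hwL
    have h2 : ∑ j, w j * x j ≤ f x / u := by
      rw [dual_sum, Finset.sum_div]
      refine Finset.sum_le_sum (fun j _ => ?_)
      calc w j * x j ≤ f (Pi.single j 1) / u * x j := mul_le_mul_of_nonneg_right (min_le_left _ _) (hx0 j)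
        _ = f (Pi.single j 1) * x j / u := by ring
    have h3 : f x / u < 1 := by rw [div_lt_one hu]; exact hfx
    linarith

theorem t : S_CT := by
  intro N V c hN hV
  have hE := eqn pCL hN hV
  obtain ⟨hconv, hc, h0, hthick⟩ := hV
  refine ⟨hconv, h0, by positivity, ?_, ?_, fun w hw => hw.1, hE⟩
  · -- compact
    have hbox : IsCompact (Set.pi univ fun _ : Fin N => Icc (0 : ℝ) (1 / c)) :=
      isCompact_univ_pi fun _ => isCompact_Icc
    refine hbox.of_isClosed_subset ?_ ?_
    · have h1 : Lc V c = (⋂ j : Fin N, {w : Fin N → ℝ | 0 ≤ w j ∧ w j ≤ 1 / c}) ∩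
          ⋂ v ∈ V, {w : Fin N → ℝ | 1 ≤ dt w (cv v)} := by
        ext w
        simp only [Lc, mem_setOf_eq, mem_inter_iff, mem_iInter]
      rw [h1]
      refine IsClosed.inter (isClosed_iInter fun j => ?_) (isClosed_biInter fun v _ => ?_)
      · exact (isClosed_le continuous_const (continuous_apply j)).inter
          (isClosed_le (continuous_apply j) continuous_const)
      · refine isClosed_le continuous_const ?_
        unfold dt
        exact continuous_finsetSum _ fun j _ => (continuous_apply j).mul continuous_const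
    · intro w hw j _
      exact ⟨(hw.1 j).1, (hw.1 j).2⟩
  · -- nonempty
    refine ⟨fun _ => 1 / c, fun j => ⟨by positivity, le_rfl⟩, fun v hv => ?_⟩
    have hv0 : v ≠ 0 := fun h => h0 (h ▸ hv)
    obtain ⟨j, hj⟩ := Function.ne_iff.1 hv0
    have hj' : v j ≠ 0 := hj
    have h1 := hthick v hv j hj'
    have h2 : (1 : ℝ) ≤ 1 / c * (v j : ℝ) := by
      rw [one_div, ← inv_mul_cancel₀ hc.ne']
      exact mul_le_mul_of_nonneg_left h1 (by positivity)
    refine h2.trans ?_
    exact Finset.single_le_sum (f := fun k => (fun _ : Fin N => 1 / c) k * cv v k)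
      (fun k _ => mul_nonneg (by positivity) (Nat.cast_nonneg _)) (Finset.mem_univ j)

end Pool.Agent.Helper62.KG.CT
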